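import Mathlib

namespace Pool.Agent.H.MP_3ec6ac_an

open Set Function
open scoped ContDiff

theorem inv (B : ℝ → ℝ) (hB : ContDiff ℝ ∞ B) (c : ℝ) (hc : 0 < c) (h : ∀ t, c ≤ B t) :
    ∃ Y T : ℝ → ℝ, (∀ t, HasDerivAt Y (B t) t) ∧ ContDiff ℝ ∞ T ∧
      (∀ y, HasDerivAt T (B (T y))⁻¹ y) ∧ (∀ t, T (Y t) = t) ∧ (∀ y, Y (T y) = y) ∧
      ∀ p, 0 < p → Periodic B p → ∃ q, 0 < q ∧ ∀ y, T (y + q) = T y + p := by
  set Y : ℝ → ℝ := fun t => ∫ x in (0 : ℝ)..t, B x with hY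
  have hd : ∀ t, HasDerivAt Y (B t) t := fun t =>
    (hB.continuous.integral_hasStrictDerivAt 0 t).hasDerivAt
  have hpos : ∀ t, 0 < B t := fun t => hc.trans_le (h t)
  have hm : StrictMono Y := strictMono_of_hasDerivAt_pos hd hpos
  have hcont : Continuous Y := continuous_iff_continuousAt.2 fun t => (hd t).continuousAt
  have h0 : Y 0 = 0 := by simp [hY]
  have hm2 : Monotone fun t => Y t - c * t := by
    refine monotone_of_hasDerivAt_nonneg (f' := fun t => B t - c) (fun t => ?_) fun t => ?_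
    · exact ((hd t).fun_sub ((hasDerivAt_id' t).const_mul c)).congr_deriv (by ring)
    · simpa using h t
  have hs : Surjective Y := by
    intro y
    refine mem_range_of_exists_le_of_exists_ge hcont ⟨-(|y| / c), ?_⟩ ⟨|y| / c, ?_⟩
    · have := hm2 (show -(|y| / c) ≤ 0 by have : 0 ≤ |y| / c := by positivity
                                          linarith)
      simp only [h0] at this
      have e : c * -(|y| / c) = -|y| := by field_simp
      have := neg_abs_le y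
      linarith
    · have := hm2 (show 0 ≤ |y| / c by positivity)
      simp only [h0] at this
      have e : c * (|y| / c) = |y| := by field_simp
      have := le_abs_self y
      linarith
  let e : ℝ ≃ₜ ℝ := (hm.orderIsoOfSurjective Y hs).toHomeomorph
  have he : (e : ℝ → ℝ) = Y := rfl
  have hYs : ContDiff ℝ ∞ Y := by
    rw [contDiff_infty_iff_deriv]
    refine ⟨fun t => (hd t).differentiableAt, ?_⟩
    have : deriv Y = B := funext fun t => (hd t).deriv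
    rw [this]; exact hB
  have h1 : ∀ t, e.symm (Y t) = t := fun t => e.symm_apply_apply t
  have h2 : ∀ y, Y (e.symm y) = y := fun y => e.apply_symm_apply y
  refine ⟨Y, e.symm, hd, e.contDiff_symm_deriv (fun t => (hpos t).ne') hd hYs, fun y => ?_, h1, h2,
    fun p hp hP => ⟨Y p, h0 ▸ hm hp, fun y => ?_⟩⟩
  · exact HasDerivAt.of_local_left_inverse e.symm.continuous.continuousAt (hd _) (hpos _).ne'
      (Filter.Eventually.of_forall h2)
  · have := hP.intervalIntegral_add_eq_add 0 (e.symm y) (fun a b => hB.continuous.intervalIntegrable a b)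
    rw [zero_add] at this
    have h3 : Y (e.symm y + p) = y + Y p := by
      conv_rhs => rw [← h2 y]
      exact this
    rw [← h3, h1]

theorem cut (r R : ℝ) (hr : 0 < r) (hR : r < R) :
    ∃ σ : ℝ → ℝ, ContDiff ℝ ∞ σ ∧ (∀ t, |σ t| ≤ R) ∧ ∀ t, |t| ≤ r → σ t = t := by
  let χ : ContDiffBump (0 : ℝ) := ⟨r, R, hr, hR⟩
  refine ⟨fun t => χ t * t, χ.contDiff.mul contDiff_id, fun t => ?_, fun t ht => ?_⟩
  · by_cases ht : |t| ≤ R
    · rw [abs_mul, abs_of_nonneg χ.nonneg]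
      have := χ.le_one (x := t)
      have := χ.nonneg (x := t)
      nlinarith [abs_nonneg t]
    · have : χ t = 0 := χ.zero_of_le_dist (by simpa using (not_le.1 ht).le)
      simp only [this, zero_mul, abs_zero]; linarith
  · have : χ t = 1 := χ.one_of_mem_closedBall (by simpa using ht)
    simp [this]

theorem orth (a b : ℝ → ℝ) (ha : Differentiable ℝ a) (hb : Differentiable ℝ b) (p : ℝ × ℝ) :
    fderiv ℝ (fun p : ℝ × ℝ => -(a p.1 * b p.2)) p (1, 0) *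
        fderiv ℝ (fun p : ℝ × ℝ => -(a p.1 * b p.2)) p (0, 1) +
      fderiv ℝ (fun p : ℝ × ℝ => (a p.1 * a p.1 - b p.2 * b p.2 - 4) / 2) p (1, 0) *
        fderiv ℝ (fun p : ℝ × ℝ => (a p.1 * a p.1 - b p.2 * b p.2 - 4) / 2) p (0, 1) = 0 := by
  have h1 := (ha p.1).hasDerivAt.comp_hasFDerivAt p (hasFDerivAt_fst (𝕜 := ℝ) (p := p))
  have h2 := (hb p.2).hasDerivAt.comp_hasFDerivAt p (hasFDerivAt_snd (𝕜 := ℝ) (p := p))
  have h3 := (h1.mul h2).neg
  have h4 := (((h1.mul h1).sub (h2.mul h2)).sub_const 4).mul_const (2 : ℝ)⁻¹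
  have e3 := (show HasFDerivAt (fun p : ℝ × ℝ => -(a p.1 * b p.2)) _ p from h3).fderiv
  have e4 := (show HasFDerivAt
    (fun p : ℝ × ℝ => (a p.1 * a p.1 - b p.2 * b p.2 - 4) * (2 : ℝ)⁻¹) _ p from h4).fderiv
  simp only [div_eq_mul_inv]
  rw [e3, e4]
  simp
  ring

noncomputable def ρ (z : ℝ) : ℝ := 1 + (z ^ 2 + z ^ 3) / 28
noncomputable def s (z : ℝ) : ℝ := z * ρ z
noncomputable def D (z : ℝ) : ℝ :=
  1 + z ^ 2 / 7 + 5 / 28 * z ^ 3 + 3 / 784 * z ^ 4 + 7 / 784 * z ^ 5 + 4 / 784 * z ^ 6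
noncomputable def D1 (z : ℝ) : ℝ :=
  2 / 7 + 15 / 28 * z + 12 / 784 * z ^ 2 + 35 / 784 * z ^ 3 + 24 / 784 * z ^ 4
noncomputable def E (z : ℝ) : ℝ := 1 / 4 - z ^ 2
noncomputable def G (z : ℝ) : ℝ := D z + E z * D1 z
noncomputable def M (z : ℝ) : ℝ := 1 - 4 / 9 * E z * D z ^ 4
noncomputable def p (z : ℝ) : ℝ := s z * s z + 2 / 3 * E z * D z
noncomputable def B0 (z : ℝ) : ℝ := G z * M z / (2 * ρ z * D z ^ 3)

theorem hD (z : ℝ) : HasDerivAt D (z * D1 z) z := by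
  have := ((((((hasDerivAt_pow 2 z).div_const 7).const_add 1).add
    ((hasDerivAt_pow 3 z).const_mul (5 / 28))).add ((hasDerivAt_pow 4 z).const_mul (3 / 784))).add
    ((hasDerivAt_pow 5 z).const_mul (7 / 784))).add ((hasDerivAt_pow 6 z).const_mul (4 / 784))
  exact (show HasDerivAt D _ z from this).congr_deriv (by simp [D1]; ring)

theorem hE (z : ℝ) : HasDerivAt E (-2 * z) z := by
  have := (hasDerivAt_pow 2 z).const_sub (1 / 4)
  exact (show HasDerivAt E _ z from this).congr_deriv (by simp)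

theorem hs (z : ℝ) : HasDerivAt s (1 + (3 * z ^ 2 + 4 * z ^ 3) / 28) z := by
  have := (hasDerivAt_id' z).mul
    ((((hasDerivAt_pow 2 z).add (hasDerivAt_pow 3 z)).div_const 28).const_add 1)
  exact (show HasDerivAt s _ z from this).congr_deriv (by simp; ring)

theorem hp (z : ℝ) : HasDerivAt p (2 / 3 * z * G z) z := by
  have := ((hs z).mul (hs z)).add ((((hE z).const_mul (2 / 3))).mul (hD z))
  exact (show HasDerivAt p _ z from this).congr_deriv (by simp only [G, s, ρ, D, D1, E]; ring)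

theorem bdJ (z v w δ : ℝ) (h1 : -(3 / 5) ≤ z) (h2 : z ≤ 3 / 5) (v1 : 175 / 1000 ≤ v)
    (w1 : 0 ≤ w) (w2 : w ≤ 255 / 1000) (d1 : 0 ≤ δ) (d2 : δ ≤ 92 / 1000) :
    -(28 / 9) * v + z * (4 / 9 * w * (4 + 6 * δ + 4 * δ ^ 2 + δ ^ 3) -
      w ^ 2 * (30 / 9 + 12 / 9 * δ + 1 / 9 * δ ^ 2)) < 0 := by
  have q2 : δ ^ 2 ≤ 1 / 100 := by nlinarith
  have q0 : 0 ≤ δ ^ 2 := by positivity
  have q3 : δ ^ 3 ≤ 1 / 1000 := by nlinarith
  have q1 : 0 ≤ δ ^ 3 := by positivity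
  have w3 : w ^ 2 ≤ 66 / 1000 := by nlinarith
  have w0 : 0 ≤ w ^ 2 := by positivity
  have j1 : 4 / 9 * w * (4 + 6 * δ + 4 * δ ^ 2 + δ ^ 3) ≤ 4 / 9 * (255 / 1000) * (46 / 10) :=
    mul_le_mul (by linarith) (by linarith) (by positivity) (by positivity)
  have j2 : 0 ≤ 4 / 9 * w * (4 + 6 * δ + 4 * δ ^ 2 + δ ^ 3) := by positivity
  have j3 : w ^ 2 * (30 / 9 + 12 / 9 * δ + 1 / 9 * δ ^ 2) ≤ 66 / 1000 * 4 :=
    mul_le_mul w3 (by linarith) (by positivity) (by positivity)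
  have j4 : 0 ≤ w ^ 2 * (30 / 9 + 12 / 9 * δ + 1 / 9 * δ ^ 2) := by positivity
  generalize 4 / 9 * w * (4 + 6 * δ + 4 * δ ^ 2 + δ ^ 3) = a at *
  generalize w ^ 2 * (30 / 9 + 12 / 9 * δ + 1 / 9 * δ ^ 2) = b at *
  have k1 : 0 ≤ (3 / 5 - z) * (53 / 100 + (a - b)) := mul_nonneg (by linarith) (by linarith)
  have k2 : 0 ≤ (3 / 5 + z) * (53 / 100 - (a - b)) := mul_nonneg (by linarith) (by linarith)
  nlinarith

theorem bd0 (z : ℝ) (hz : |z| ≤ 3 / 5) :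
    1 ≤ ρ z ∧ ρ z ≤ 103 / 100 ∧ 1 ≤ D z ∧ D z ≤ 11 / 10 ∧ -(11 / 100) ≤ E z ∧ E z ≤ 1 / 4 ∧
      -(1 / 10) ≤ D1 z ∧ D1 z ≤ 1 ∧ z ^ 2 ≤ 9 / 25 ∧
      ∃ H < 0, M z - 8 / 9 * D z ^ 3 = z ^ 3 * H := by
  obtain ⟨h1, h2⟩ := abs_le.1 hz
  have a2 : z ^ 2 ≤ 9 / 25 := by nlinarith
  have b2 : 0 ≤ z ^ 2 := sq_nonneg z
  have a3 : z ^ 3 ≤ 27 / 125 := by nlinarith
  have b3 : -(27 / 125) ≤ z ^ 3 := by nlinarith
  have a4 : z ^ 4 ≤ 81 / 625 := by nlinarith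
  have b4 : 0 ≤ z ^ 4 := by positivity
  have r1 : 1 ≤ ρ z := by unfold ρ; nlinarith
  have r2 : ρ z ≤ 103 / 100 := by unfold ρ; linarith
  have e1 : -(11 / 100) ≤ E z := by unfold E; linarith
  have e2 : E z ≤ 1 / 4 := by unfold E; linarith
  have f1 : -(1 / 10) ≤ D1 z := by unfold D1; linarith
  have f2 : D1 z ≤ 1 := by unfold D1; linarith
  obtain ⟨v, hv⟩ : ∃ v : ℝ, v = 5 / 28 + 3 / 784 * z + 7 / 784 * z ^ 2 + 4 / 784 * z ^ 3 := ⟨_, rfl⟩
  have v1 : 175 / 1000 ≤ v := by rw [hv]; linarith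
  have v2 : v ≤ 186 / 1000 := by rw [hv]; linarith
  obtain ⟨w, hw⟩ : ∃ w : ℝ, w = 1 / 7 + z * v := ⟨_, rfl⟩
  have k1 : 0 ≤ (3 / 5 - z) * v := mul_nonneg (by linarith) (by linarith)
  have k2 : 0 ≤ (3 / 5 + z) * v := mul_nonneg (by linarith) (by linarith)
  have w1 : 0 ≤ w := by rw [hw]; linarith
  have w2 : w ≤ 255 / 1000 := by rw [hw]; linarith
  obtain ⟨δ, hδ⟩ : ∃ δ : ℝ, δ = z ^ 2 * w := ⟨_, rfl⟩
  have d1 : 0 ≤ δ := by rw [hδ]; positivity
  have d2 : δ ≤ 92 / 1000 := by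
    have := mul_le_mul a2 w2 w1 (by norm_num)
    linarith
  have eD : D z = 1 + δ := by rw [hδ, hw, hv, D]; ring
  refine ⟨r1, r2, by linarith, by linarith, e1, e2, f1, f2, a2, _, bdJ z v w δ h1 h2 v1 w1 w2 d1 d2, ?_⟩
  unfold M E
  rw [eD, hδ, hw]
  ring

theorem bd (z : ℝ) (hz : |z| ≤ 3 / 5) :
    1 ≤ ρ z ∧ ρ z ≤ 103 / 100 ∧ 1 ≤ D z ∧ D z ≤ 11 / 10 ∧ 3 / 4 ≤ G z ∧ 4 / 5 ≤ M z ∧
      |p z| ≤ 1 ∧ 1 / 10 ≤ B0 z := by
  obtain ⟨r1, r2, d1, d2, e1, e2, f1, f2, a2, -⟩ := bd0 z hz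
  have D2 : D z ^ 2 ≤ 121 / 100 := by nlinarith
  have D3 : D z ^ 3 ≤ 14 / 10 := by nlinarith
  have D4 : D z ^ 4 ≤ 3 / 2 := by
    have : D z ^ 4 = D z ^ 2 * D z ^ 2 := by ring
    nlinarith [sq_nonneg (D z)]
  have D0 : 0 ≤ D z ^ 4 := by positivity
  have g : 3 / 4 ≤ G z := by
    have k1 : 0 ≤ (E z + 11 / 100) * (D1 z + 1 / 10) := mul_nonneg (by linarith) (by linarith)
    unfold G; nlinarith
  have m : 4 / 5 ≤ M z := by
    have k1 : 0 ≤ (1 / 4 - E z) * D z ^ 4 := mul_nonneg (by linarith) D0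
    unfold M; nlinarith
  refine ⟨r1, r2, d1, d2, g, m, ?_, ?_⟩
  · have e : s z * s z = z ^ 2 * (ρ z * ρ z) := by unfold s; ring
    have k0 : ρ z * ρ z ≤ 11 / 10 := by nlinarith
    have k3 : s z * s z ≤ 9 / 25 * (11 / 10) := by
      rw [e]; exact mul_le_mul a2 k0 (by positivity) (by norm_num)
    have := mul_self_nonneg (s z)
    have k1 : 0 ≤ (E z + 11 / 100) * D z := mul_nonneg (by linarith) (by linarith)
    have k2 : 0 ≤ (1 / 4 - E z) * D z := mul_nonneg (by linarith) (by linarith)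
    unfold p
    rw [abs_le]
    constructor <;> nlinarith
  · unfold B0
    rw [le_div_iff₀ (by positivity)]
    have k1 : 3 / 4 * (4 / 5) ≤ G z * M z := mul_le_mul g m (by norm_num) (by linarith)
    have k2 : ρ z * D z ^ 3 ≤ 103 / 100 * (14 / 10) := mul_le_mul r2 D3 (by positivity) (by norm_num)
    nlinarith

theorem iso (U z : ℝ → ℝ) (T : ℝ) (hT : 0 < T) (pU : Periodic U T) (pz : Periodic z T)
    (hz : ∀ t, |z t| ≤ 3 / 5) (dU : ∀ t, HasDerivAt U (-s (z t)) t)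
    (dz : ∀ t, HasDerivAt z ((B0 (z t))⁻¹ * ((U t - s (z t) * s (z t)) / 2)) t)
    (hne : ∀ t, ¬(U t = 0 ∧ z t = 0)) : (D (z 0) * (U 0 - p (z 0))) ^ 2 + z 0 ^ 2 = 1 / 4 := by
  set Φ : ℝ → ℝ := fun t =>
    ((U t - p (z t)) * (U t - p (z t)) - E (z t) / (D (z t) * D (z t))) * Real.exp (-(3 / 2) * U t)
    with hΦ
  choose H hH eH using fun t => (bd0 (z t) (hz t)).2.2.2.2.2.2.2.2.2
  have dΦ : ∀ t, HasDerivAt Φ (Φ t * (3 / 2 * ρ (z t) * z t ^ 4 * H t / M (z t))) t := by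
    intro t
    obtain ⟨r1, r2, d1, d2, g, m, -, -⟩ := bd (z t) (hz t)
    have a1 := (dU t).fun_sub ((hp (z t)).comp t (dz t))
    have a2 := (hD (z t)).comp t (dz t)
    have a3 := (hE (z t)).comp t (dz t)
    have hD0 : D (z t) ≠ 0 := by linarith
    have a4 := ((a1.fun_mul a1).fun_sub (a3.fun_div (a2.fun_mul a2) (mul_ne_zero hD0 hD0))).fun_mul
      ((dU t).const_mul (-(3 / 2))).exp
    refine (show HasDerivAt Φ _ t from a4).congr_deriv ?_
    have e1 : 3 / 2 * ρ (z t) * z t ^ 4 * H t = 3 / 2 * s (z t) * (M (z t) - 8 / 9 * D (z t) ^ 3) := by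
      rw [eH t, s]; ring
    have e2 : z t * D1 (z t) * E (z t) = z t * (G (z t) - D (z t)) := by rw [G]; ring
    have hG0 : G (z t) ≠ 0 := by linarith
    have hM0 : M (z t) ≠ 0 := by linarith
    have hr0 : ρ (z t) ≠ 0 := by linarith
    rw [e1]
    simp only [hΦ, Function.comp, B0]
    field_simp
    simp only [G, M, p, s]
    ring
  have pΦ : Periodic Φ T := fun t => by simp only [hΦ, pU t, pz t]
  have dΨ : ∀ t, HasDerivAt (fun t => Φ t * Φ t)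
      (Φ t * Φ t * z t ^ 4 * (3 * ρ (z t) * H t / M (z t))) t := fun t =>
    ((dΦ t).fun_mul (dΦ t)).congr_deriv (by ring)
  have neg : ∀ t, 3 * ρ (z t) * H t / M (z t) < 0 := by
    intro t
    obtain ⟨r1, r2, d1, d2, g, m, -, -⟩ := bd (z t) (hz t)
    exact div_neg_of_neg_of_pos (mul_neg_of_pos_of_neg (by linarith) (hH t)) (by linarith)
  have an : Antitone fun t => Φ t * Φ t := antitone_of_hasDerivAt_nonpos dΨ fun t =>
    mul_nonpos_of_nonneg_of_nonpos (mul_nonneg (mul_self_nonneg _) (by positivity)) (neg t).le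
  have d0 : ∀ t, Φ t * Φ t * z t ^ 4 * (3 * ρ (z t) * H t / M (z t)) = 0 := by
    intro t
    have : (fun t => Φ t * Φ t) =ᶠ[nhds t] fun _ => Φ t * Φ t := by
      filter_upwards [Ioo_mem_nhds (show t - T < t by linarith) (show t < t + T by linarith)] with u hu
      have b1 := an hu.1.le
      have b2 := an hu.2.le
      simp only [pΦ t, pΦ.sub_eq t] at b1 b2
      linarith
    exact (dΨ t).unique ((hasDerivAt_const t _).congr_of_eventuallyEq this)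
  have cst : ∀ t, Φ t * Φ t = Φ 0 * Φ 0 := fun t =>
    is_const_of_deriv_eq_zero (f := fun t => Φ t * Φ t) (fun t => (dΨ t).differentiableAt)
      (fun t => by rw [(dΨ t).deriv, d0]) t 0
  have h0 : Φ 0 = 0 := by
    by_contra h0
    have z0 : ∀ t, z t = 0 := by
      intro t
      have := d0 t
      rw [cst t] at this
      rcases mul_eq_zero.1 this with h | h
      · rcases mul_eq_zero.1 h with h | h
        · exact absurd (mul_self_eq_zero.1 h) h0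
        · exact pow_eq_zero_iff (by norm_num) |>.1 h
      · exact absurd h (neg t).ne
    have : z = fun _ => 0 := funext z0
    have k := (dz 0).unique (this ▸ hasDerivAt_const (0 : ℝ) (0 : ℝ))
    have b := (bd (z 0) (hz 0)).2.2.2.2.2.2.2
    have b' : (B0 (z 0))⁻¹ ≠ 0 := inv_ne_zero (by linarith)
    have k2 := (mul_eq_zero.1 k).resolve_left b'
    refine hne 0 ⟨?_, z0 0⟩
    rw [z0 0] at k2
    simp [s] at k2
    exact k2
  have hD0 : D (z 0) ≠ 0 := by have := (bd (z 0) (hz 0)).2.2.1; linarith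
  have := (mul_eq_zero.1 h0).resolve_right (Real.exp_pos _).ne'
  field_simp at this
  unfold E at this
  linarith

theorem cD : ContDiff ℝ ∞ D := by unfold D; fun_prop
theorem cρ : ContDiff ℝ ∞ ρ := by unfold ρ; fun_prop
theorem cs : ContDiff ℝ ∞ s := by unfold s ρ; fun_prop
theorem cG : ContDiff ℝ ∞ G := by unfold G D E D1; fun_prop
theorem cM : ContDiff ℝ ∞ M := by unfold M D E; fun_prop

theorem orb : ∃ U z : ℝ → ℝ, ∃ T > 0, Periodic U T ∧ Periodic z T ∧ (∀ t, |z t| ≤ 1 / 2) ∧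
    (∀ t, |U t| < 2) ∧ (∀ t, HasDerivAt U (-s (z t)) t) ∧
    (∀ t, HasDerivAt z ((B0 (z t))⁻¹ * ((U t - s (z t) * s (z t)) / 2)) t) ∧
    (∀ t, ¬(U t = 0 ∧ z t = 0)) ∧ (∃ a b, z a ≠ z b) ∧
    ∀ u y : ℝ, |y| ≤ 3 / 5 → (D y * (u - p y)) ^ 2 + y ^ 2 = 1 / 4 → ∃ t, U t = u ∧ z t = y := by
  set ζ : ℝ → ℝ := fun θ => Real.sin θ / 2 with hζ
  set η : ℝ → ℝ := fun θ => Real.cos θ / 2 with hη
  have hz : ∀ θ, |ζ θ| ≤ 1 / 2 := fun θ => by
    have := Real.abs_sin_le_one θ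
    simp only [hζ, abs_div, abs_two]; linarith
  have hz' : ∀ θ, |ζ θ| ≤ 3 / 5 := fun θ => (hz θ).trans (by norm_num)
  have he : ∀ θ, |η θ| ≤ 1 / 2 := fun θ => by
    have := Real.abs_cos_le_one θ
    simp only [hη, abs_div, abs_two]; linarith
  have hEE : ∀ θ, E (ζ θ) = η θ ^ 2 := fun θ => by
    simp only [E, hζ, hη]; nlinarith [Real.sin_sq_add_cos_sq θ]
  have hb : ∀ θ, |2 / 3 * η θ * D (ζ θ) ^ 2| ≤ 1 / 2 := fun θ => by
    obtain ⟨r1, r2, d1, d2, g, m, -, -⟩ := bd (ζ θ) (hz' θ)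
    have D2 : D (ζ θ) ^ 2 ≤ 121 / 100 := by nlinarith
    rw [abs_mul, abs_mul, abs_of_nonneg (sq_nonneg (D (ζ θ))), abs_of_pos (by norm_num : (0:ℝ) < 2 / 3)]
    have := mul_le_mul (he θ) D2 (by positivity) (by norm_num)
    linarith
  set C : ℝ → ℝ := fun θ => G (ζ θ) * (1 - 2 / 3 * η θ * D (ζ θ) ^ 2) / (ρ (ζ θ) * D (ζ θ) ^ 2)
    with hC
  have cζ : ContDiff ℝ ∞ ζ := Real.contDiff_sin.div_const 2
  have cη : ContDiff ℝ ∞ η := Real.contDiff_cos.div_const 2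
  have cC : ContDiff ℝ ∞ C := by
    refine ((cG.comp cζ).mul (contDiff_const.sub ((contDiff_const.mul cη).mul
      ((cD.comp cζ).pow 2)))).div ((cρ.comp cζ).mul ((cD.comp cζ).pow 2)) fun θ => ?_
    obtain ⟨r1, r2, d1, d2, g, m, -, -⟩ := bd (ζ θ) (hz' θ)
    exact (show 0 < ρ (ζ θ) * D (ζ θ) ^ 2 by positivity).ne'
  have lC : ∀ θ, 1 / 10 ≤ C θ := fun θ => by
    obtain ⟨r1, r2, d1, d2, g, m, -, -⟩ := bd (ζ θ) (hz' θ)
    have D2 : D (ζ θ) ^ 2 ≤ 121 / 100 := by nlinarith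
    have := (abs_le.1 (hb θ)).2
    simp only [hC]
    rw [le_div_iff₀ (by positivity)]
    have k1 : 3 / 4 * (1 / 2) ≤ G (ζ θ) * (1 - 2 / 3 * η θ * D (ζ θ) ^ 2) :=
      mul_le_mul g (by linarith) (by norm_num) (by linarith)
    have k2 : ρ (ζ θ) * D (ζ θ) ^ 2 ≤ 103 / 100 * (121 / 100) :=
      mul_le_mul r2 D2 (by positivity) (by norm_num)
    linarith
  obtain ⟨Y, Θ, -, -, dΘ, h1, -, h3⟩ := inv C cC (1 / 10) (by norm_num) lC
  have pζ : Periodic ζ (2 * Real.pi) := fun θ => by simp [hζ]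
  have pη : Periodic η (2 * Real.pi) := fun θ => by simp [hη]
  obtain ⟨T, hT, hp'⟩ := h3 (2 * Real.pi) (by positivity) fun θ => by simp only [hC, pζ θ, pη θ]
  have dζ : ∀ t, HasDerivAt (fun t => ζ (Θ t)) (η (Θ t) * (C (Θ t))⁻¹) t := fun t =>
    ((Real.hasDerivAt_sin (Θ t)).div_const 2).comp t (dΘ t)
  have dη : ∀ t, HasDerivAt (fun t => η (Θ t)) (-ζ (Θ t) * (C (Θ t))⁻¹) t := fun t =>
    (((Real.hasDerivAt_cos (Θ t)).div_const 2).comp t (dΘ t)).congr_deriv (by simp only [hζ]; ring)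
  refine ⟨fun t => p (ζ (Θ t)) + η (Θ t) / D (ζ (Θ t)), fun t => ζ (Θ t), T, hT, fun t => ?_,
    fun t => ?_, fun t => hz _, fun t => ?_, fun t => ?_, fun t => ?_, fun t => ?_,
    ⟨Y 0, Y (Real.pi / 2), by simp [h1, hζ]⟩, fun u y hy h => ?_⟩
  · simp only [hp', pζ _, pη _]
  · simp only [hp', pζ _]
  · obtain ⟨r1, r2, d1, d2, g, m, q, -⟩ := bd (ζ (Θ t)) (hz' _)
    have : |η (Θ t) / D (ζ (Θ t))| ≤ 1 / 2 := by
      rw [abs_div, abs_of_pos (by linarith : 0 < D (ζ (Θ t))), div_le_iff₀ (by linarith)]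
      have := he (Θ t); linarith
    have := abs_add_le (p (ζ (Θ t))) (η (Θ t) / D (ζ (Θ t)))
    linarith
  · obtain ⟨r1, r2, d1, d2, g, m, q, -⟩ := bd (ζ (Θ t)) (hz' _)
    have hD0 : D (ζ (Θ t)) ≠ 0 := by linarith
    have hG0 : G (ζ (Θ t)) ≠ 0 := by linarith
    have hr0 : ρ (ζ (Θ t)) ≠ 0 := by linarith
    have hb0 : 1 - 2 / 3 * η (Θ t) * D (ζ (Θ t)) ^ 2 ≠ 0 := by
      have := (abs_le.1 (hb (Θ t))).2; linarith
    have a := ((hp _).comp t (dζ t)).fun_add ((dη t).fun_div ((hD _).comp t (dζ t)) hD0)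
    refine HasDerivAt.congr_deriv a ?_
    have hb1 : 3 - 2 * η (Θ t) * D (ζ (Θ t)) ^ 2 ≠ 0 := fun h => hb0 (by linarith)
    have e : G (ζ (Θ t)) = D (ζ (Θ t)) + η (Θ t) ^ 2 * D1 (ζ (Θ t)) := by rw [G, hEE]
    simp only [hC, Function.comp, s]
    field_simp
    rw [e]; ring
  · obtain ⟨r1, r2, d1, d2, g, m, q, -⟩ := bd (ζ (Θ t)) (hz' _)
    have hD0 : D (ζ (Θ t)) ≠ 0 := by linarith
    have hG0 : G (ζ (Θ t)) ≠ 0 := by linarith
    have hr0 : ρ (ζ (Θ t)) ≠ 0 := by linarith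
    have hM0 : M (ζ (Θ t)) ≠ 0 := by linarith
    have hb0 : 1 - 2 / 3 * η (Θ t) * D (ζ (Θ t)) ^ 2 ≠ 0 := by
      have := (abs_le.1 (hb (Θ t))).2; linarith
    have hb1 : 3 - 2 * η (Θ t) * D (ζ (Θ t)) ^ 2 ≠ 0 := fun h => hb0 (by linarith)
    refine (dζ t).congr_deriv ?_
    have eM : M (ζ (Θ t)) = (1 - 2 / 3 * η (Θ t) * D (ζ (Θ t)) ^ 2) *
      (1 + 2 / 3 * η (Θ t) * D (ζ (Θ t)) ^ 2) := by rw [M, hEE]; ring
    have hc0 : 1 + 2 / 3 * η (Θ t) * D (ζ (Θ t)) ^ 2 ≠ 0 := by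
      have := (abs_le.1 (hb (Θ t))).1; linarith
    simp only [hC, B0, p, hEE, eM]
    generalize 1 - 2 / 3 * η (Θ t) * D (ζ (Θ t)) ^ 2 = b at *
    generalize hc : 1 + 2 / 3 * η (Θ t) * D (ζ (Θ t)) ^ 2 = c at *
    field_simp
    rw [← hc]
    ring
  · rintro ⟨k1, k2⟩
    have := hEE (Θ t)
    simp only at k1 k2
    rw [k2] at k1 this
    simp only [p, s, D, E] at k1 this
    norm_num at k1 this
    have k3 : η (Θ t) = -(1 / 6) := by linarith
    rw [k3] at this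
    norm_num at this
  · have hD0 : D y ≠ 0 := by have := (bd y hy).2.2.1; linarith
    set w : ℂ := ⟨2 * (D y * (u - p y)), 2 * y⟩ with hw
    have n1 : ‖w‖ = 1 := by
      rw [Complex.norm_def, Complex.normSq_mk, Real.sqrt_eq_one]; nlinarith
    have w0 : w ≠ 0 := fun h => by simp [h] at n1
    have c1 := Complex.cos_arg w0
    have c2 := Complex.sin_arg w
    rw [n1, div_one] at c1 c2
    have e1 : ζ w.arg = y := by
      show Real.sin w.arg / 2 = y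
      rw [c2]; simp [hw]
    have e2 : η w.arg = D y * (u - p y) := by
      show Real.cos w.arg / 2 = _
      rw [c1]; simp [hw]
    refine ⟨Y w.arg, ?_, ?_⟩
    · simp only [h1, e1, e2]; field_simp; ring
    · simp only [h1, e1]

end Pool.Agent.H.MP_3ec6ac_an
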